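import Pool.Agent.Run7.h370.QC.Bas
import Pool.Agent.Run7.h370.MQ.Cyc

/-!
# Transport of the dressings
-/

set_option autoImplicit false

open Matrix
open scoped Matrix.Norms.Frobenius ComplexConjugate

namespace Run7.h105.QC

open Run7.h4.YM Run7.h630.MQ Run7.h630.QC Run7.h370.MQ Run7.h370.QC

variable {N n L l : ℕ}

/-- the Frobenius norm is invariant under the multiplication by unitary matrices -/
theorem nru (X : Mt N) (g : SU N) : ‖X * g.1‖ = ‖X‖ := by
  have h : ‖X * g.1‖ ^ 2 = ‖X‖ ^ 2 := by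
    rw [norm_sq_tr, norm_sq_tr, conjTranspose_mul, ← Matrix.mul_assoc, Matrix.mul_assoc X,
      mul_star_self', Matrix.mul_one]
  exact (sq_eq_sq₀ (norm_nonneg _) (norm_nonneg _)).1 h

theorem nlu (X : Mt N) (g : SU N) : ‖g.1 * X‖ = ‖X‖ := by
  have h : ‖g.1 * X‖ ^ 2 = ‖X‖ ^ 2 := by
    rw [norm_sq_tr, norm_sq_tr, conjTranspose_mul, ← Matrix.mul_assoc, Matrix.mul_assoc g.1,
      trace_cj]
  exact (sq_eq_sq₀ (norm_nonneg _) (norm_nonneg _)).1 h

/-- products of approximately equal unitary matrices -/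
theorem apx_mul {g g' h h' : SU N} {z z' : ℂ} {r r' : ℝ} (hz : ‖z‖ = 1)
    (h1 : ‖g.1 - z • h.1‖ ≤ r) (h2 : ‖g'.1 - z' • h'.1‖ ≤ r') :
    ‖(g * g').1 - (z * z') • (h * h').1‖ ≤ r + r' := by
  have e : (g * g').1 - (z * z') • (h * h').1 =
      (g.1 - z • h.1) * g'.1 + z • (h.1 * (g'.1 - z' • h'.1)) := by
    have e1 : (g * g').1 = g.1 * g'.1 := rfl
    have e2 : (h * h').1 = h.1 * h'.1 := rfl
    rw [e1, e2, Matrix.sub_mul, Matrix.mul_sub, smul_sub, Matrix.smul_mul, Matrix.mul_smul,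
      smul_smul]
    abel
  rw [e]
  refine (norm_add_le _ _).trans (add_le_add ?_ ?_)
  · rw [nru]
    exact h1
  · rw [norm_smul, hz, one_mul, nlu]
    exact h2

/-- powers of approximately equal unitary matrices -/
theorem apx_pow {g h : SU N} {z : ℂ} {r : ℝ} (hz : ‖z‖ = 1) (h1 : ‖g.1 - z • h.1‖ ≤ r) (c : ℕ) :
    ‖(g ^ c).1 - z ^ c • (h ^ c).1‖ ≤ c * r := by
  induction c with
  | zero => simp
  | succ c ih =>
    have h2 := apx_mul (by rw [norm_pow, hz, one_pow]) ih h1
    rw [← pow_succ, ← pow_succ, ← pow_succ] at h2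
    rw [Nat.cast_succ, add_mul, one_mul]
    exact h2

/-- the line of length `m` in the direction `μ` from `x` -/
noncomputable def pm (μ : Fin 4) (U : Link n L l → SU N) (x : Site n L l) (m : ℕ) : SU N :=
  ((List.range m).map fun t : ℕ => U (μ, x + t • dir μ)).prod

theorem pm_succ (μ : Fin 4) (U : Link n L l → SU N) (x : Site n L l) (m : ℕ) :
    pm μ U x (m + 1) = pm μ U x m * U (μ, x + m • dir μ) := by
  unfold pm
  rw [List.range_succ, List.map_append, List.prod_append, List.map_singleton, List.prod_singleton]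

theorem plaq_val (k : ℕ) (q : ZMod n × ZMod L → ZMod N) (U : Link n L l → SU N) (x : Site n L l)
    (i j : Fin 4) : (plaq U x i j).1 - conj (zz N k q x i j) • (1 : Mt N) =
      conj (zz N k q x i j) • Fc k q U x i j := by
  rw [Fc, smul_sub, smul_smul, conj_mul_self (zz_norm k q x i j), one_smul]

theorem plaq_apx [NeZero n] [NeZero L] [NeZero l] (k : ℕ) (q : ZMod n × ZMod L → ZMod N)
    (U : Link n L l → SU N) (x : Site n L l) (i j : Fin 4) :
    ‖(plaq U x i j).1 - conj (zz N k q x i j) • (1 : SU N).1‖ ≤ ss k q U := by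
  have h1 : (1 : SU N).1 = (1 : Mt N) := rfl
  rw [h1, plaq_val, norm_smul, RCLike.norm_conj, zz_norm, one_mul]
  exact Fc_le k q U x i j

theorem norm_prod_zz (k : ℕ) (q : ZMod n × ZMod L → ZMod N) (x : Site n L l) (j μ : Fin 4)
    (m : ℕ) : ‖∏ t ∈ Finset.range m, conj (zz N k q (x + t • dir μ) j μ)‖ = 1 := by
  rw [norm_prod]
  refine Finset.prod_eq_one fun t _ => ?_
  rw [RCLike.norm_conj, zz_norm]

theorem line_tr [NeZero n] [NeZero L] [NeZero l] (k : ℕ) (q : ZMod n × ZMod L → ZMod N)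
    (U : Link n L l → SU N) (x : Site n L l) (j μ : Fin 4) (m : ℕ) :
    ‖(U (j, x) * pm μ U (x + dir j) m * (U (j, x + m • dir μ))⁻¹).1 -
      (∏ t ∈ Finset.range m, conj (zz N k q (x + t • dir μ) j μ)) • (pm μ U x m).1‖ ≤
      m * ss k q U := by
  induction m with
  | zero =>
    have h : U (j, x) * pm μ U (x + dir j) 0 * (U (j, x + 0 • dir μ))⁻¹ = 1 := by
      simp [pm]
    have h' : pm μ U x 0 = 1 := by simp [pm]
    rw [h, h']
    simp
  | succ m ih =>
    have e1 : U (j, x) * pm μ U (x + dir j) (m + 1) * (U (j, x + (m + 1) • dir μ))⁻¹ =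
        U (j, x) * pm μ U (x + dir j) m * (U (j, x + m • dir μ))⁻¹ *
          (plaq U (x + m • dir μ) j μ * U (μ, x + m • dir μ)) := by
      have e2 : x + (m + 1) • dir μ = x + m • dir μ + (dir μ : Site n L l) := by
        rw [add_smul, one_smul, add_assoc]
      have e3 : x + dir j + m • dir μ = x + m • dir μ + (dir j : Site n L l) := by
        rw [add_assoc, add_comm (dir j), ← add_assoc]
      rw [pm_succ, e2, e3]
      unfold plaq
      group
    have h1 := plaq_apx k q U (x + m • dir μ) j μ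
    have h2 : ‖(U (μ, x + m • dir μ)).1 - (1 : ℂ) • (U (μ, x + m • dir μ)).1‖ ≤ 0 := by
      rw [one_smul, sub_self, norm_zero]
    have h3 := apx_mul (by rw [RCLike.norm_conj, zz_norm]) h1 h2
    rw [mul_one, one_mul, add_zero] at h3
    have h4 := apx_mul (norm_prod_zz k q x j μ m) ih h3
    rw [← Finset.prod_range_succ, ← pm_succ, ← e1] at h4
    rw [Nat.cast_succ, add_mul, one_mul]
    exact h4

theorem l_dir3 (x : Site n L l) : x + l • (dir 3 : Site n L l) = x := by
  have h : l • (dir 3 : Site n L l) = 0 := by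
    simp only [dir, cons_val]
    ext <;> simp
  rw [h, add_zero]

theorem lp_pm (U : Link n L l → SU N) (x : Site n L l) : lp U x = pm 2 U x l := rfl

theorem lq_pm (U : Link n L l → SU N) (x : Site n L l) : lq U x = pm 3 U x l := rfl

/-- the phase of the loop in the direction `2` -/
noncomputable def r2 (N k : ℕ) (x : Site n L l) (j : Fin 4) : ℂ :=
  if j = 3 ∧ x.2.2.2 = 0 then om N k else 1

/-- the phase of the loop in the direction `3` -/
noncomputable def r3 (N k : ℕ) (x : Site n L l) (j : Fin 4) : ℂ :=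
  if j = 2 ∧ x.2.2.1 = 0 then conj (om N k) else 1

theorem one_hit [NeZero l] (a : ZMod l) (w : ℂ) :
    ∏ t ∈ Finset.range l, (if a + (t : ZMod l) = 0 then w else 1) = w := by
  rw [Finset.prod_eq_single (-a).val]
  · rw [if_pos]
    rw [ZMod.natCast_val, ZMod.cast_id', id, add_neg_cancel]
  · intro t ht hne
    rw [if_neg]
    intro h
    apply hne
    have h1 : (t : ZMod l) = -a := by
      rw [← add_eq_zero_iff_eq_neg, add_comm, h]
    rw [← h1, ZMod.val_natCast_of_lt (Finset.mem_range.1 ht)]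
  · intro h
    exact absurd (Finset.mem_range.2 (ZMod.val_lt _)) h

theorem dir2_co (x : Site n L l) (t : ℕ) :
    (x + t • dir 2).2.2 = (x.2.2.1 + (t : ZMod l), x.2.2.2) := by
  simp only [dir, cons_val]
  ext <;> simp

theorem dir3_co (x : Site n L l) (t : ℕ) :
    (x + t • dir 3).2.2 = (x.2.2.1, x.2.2.2 + (t : ZMod l)) := by
  simp only [dir, cons_val]
  ext <;> simp

theorem prod2 [NeZero l] (k : ℕ) (q : ZMod n × ZMod L → ZMod N) (x : Site n L l) (j : Fin 4) :
    ∏ t ∈ Finset.range l, conj (zz N k q (x + t • dir 2) j 2) = r2 N k x j := by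
  by_cases hj : j = 3
  · subst hj
    have e : ∀ t : ℕ, conj (zz N k q (x + t • dir 2) 3 2) =
        if x.2.2.1 + (t : ZMod l) = 0 then (if x.2.2.2 = 0 then om N k else 1) else 1 := by
      intro t
      unfold zz z0
      rw [if_neg (by decide), Complex.conj_conj, if_neg (by decide), dir2_co]
      simp only [true_and, Prod.mk_eq_zero]
      split_ifs <;> simp_all
    simp only [e]
    rw [one_hit]
    simp [r2]
  · rw [Finset.prod_eq_one]
    · simp [r2, hj]
    · intro t _
      unfold zz z0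
      fin_cases j <;> simp_all

theorem prod3 [NeZero l] (k : ℕ) (q : ZMod n × ZMod L → ZMod N) (x : Site n L l) (j : Fin 4) :
    ∏ t ∈ Finset.range l, conj (zz N k q (x + t • dir 3) j 3) = r3 N k x j := by
  by_cases hj : j = 2
  · subst hj
    have e : ∀ t : ℕ, conj (zz N k q (x + t • dir 3) 2 3) =
        if x.2.2.2 + (t : ZMod l) = 0 then (if x.2.2.1 = 0 then conj (om N k) else 1) else 1 := by
      intro t
      unfold zz z0
      rw [if_pos (by decide), if_neg (by decide), dir3_co]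
      simp only [true_and, Prod.mk_eq_zero]
      split_ifs <;> simp_all
    simp only [e]
    rw [one_hit]
    simp [r3]
  · rw [Finset.prod_eq_one]
    · simp [r3, hj]
    · intro t _
      unfold zz z0
      fin_cases j <;> simp_all

theorem r2_norm (k : ℕ) (x : Site n L l) (j : Fin 4) : ‖r2 N k x j‖ = 1 := by
  unfold r2
  split_ifs
  · exact norm_om N k
  · exact norm_one

theorem r3_norm (k : ℕ) (x : Site n L l) (j : Fin 4) : ‖r3 N k x j‖ = 1 := by
  unfold r3
  split_ifs
  · rw [RCLike.norm_conj, norm_om]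
  · exact norm_one

theorem rh_eq (k : ℕ) (α : Col N) (x : Site n L l) (j : Fin 4) :
    rh k α x j = r2 N k x j ^ (α.1 : ℕ) * r3 N k x j ^ (α.2 : ℕ) := by
  unfold rh r2 r3
  by_cases h2 : j = 2
  · subst h2
    by_cases h : x.2.2.1 = 0 <;> simp [h]
  · by_cases h3 : j = 3
    · subst h3
      by_cases h : x.2.2.2 = 0 <;> simp [h]
    · simp [h2, h3]

theorem lp_tr [NeZero n] [NeZero L] [NeZero l] (k : ℕ) (q : ZMod n × ZMod L → ZMod N)
    (U : Link n L l → SU N) (x : Site n L l) (j : Fin 4) :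
    ‖(U (j, x) * lp U (x + dir j) * (U (j, x))⁻¹).1 - r2 N k x j • (lp U x).1‖ ≤
      l * ss k q U := by
  have h := line_tr k q U x j 2 l
  rw [l_dir2, prod2] at h
  exact h

theorem lq_tr [NeZero n] [NeZero L] [NeZero l] (k : ℕ) (q : ZMod n × ZMod L → ZMod N)
    (U : Link n L l → SU N) (x : Site n L l) (j : Fin 4) :
    ‖(U (j, x) * lq U (x + dir j) * (U (j, x))⁻¹).1 - r3 N k x j • (lq U x).1‖ ≤
      l * ss k q U := by
  have h := line_tr k q U x j 3 l
  rw [l_dir3, prod3] at h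
  exact h

theorem t_Q1 : S_Q1 := by
  intro N n L l k _ _ _ _ q U α x j
  have h2 := apx_pow (r2_norm k x j) (lp_tr k q U x j) (α.1 : ℕ)
  have h3 := apx_pow (r3_norm k x j) (lq_tr k q U x j) (α.2 : ℕ)
  have h := apx_mul (by rw [norm_pow, r2_norm, one_pow]) h2 h3
  have e : (U (j, x) * lp U (x + dir j) * (U (j, x))⁻¹) ^ (α.1 : ℕ) *
      (U (j, x) * lq U (x + dir j) * (U (j, x))⁻¹) ^ (α.2 : ℕ) =
      U (j, x) * Dr α U (x + dir j) * (U (j, x))⁻¹ := by
    rw [conj_pow, conj_pow, Dr]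
    group
  rw [e, ← rh_eq] at h
  have e2 : (U (j, x) * Dr α U (x + dir j) * (U (j, x))⁻¹).1 =
      (U (j, x)).1 * (Dr α U (x + dir j)).1 * (U (j, x)).1ᴴ := rfl
  rw [e2] at h
  have e3 : lp U x ^ (α.1 : ℕ) * lq U x ^ (α.2 : ℕ) = Dr α U x := rfl
  rw [e3] at h
  refine h.trans ?_
  have hs := ss_nonneg k q U
  have h4 : ((α.1 : ℕ) : ℝ) ≤ N := by exact_mod_cast α.1.2.le
  have h5 : ((α.2 : ℕ) : ℝ) ≤ N := by exact_mod_cast α.2.2.le
  have h6 : (0 : ℝ) ≤ l * ss k q U := by positivity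
  nlinarith

end Run7.h105.QC
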