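import Pool.Agent.Run7.h105.QC.Q2

/-!
# The dressings are nearly complete
-/

set_option autoImplicit false

open Matrix
open scoped Matrix.Norms.Frobenius ComplexConjugate

namespace Run7.h105.QC

open Run7.h4.YM Run7.h630.MQ Run7.h630.QC Run7.h370.MQ Run7.h370.QC

section general

variable {ι κ : Type} [Fintype ι] [Fintype κ]

theorem nsq (A : Matrix ι κ ℂ) : ‖A‖ ^ 2 = ∑ i, ∑ j, ‖A i j‖ ^ 2 := by
  rw [frobenius_norm_def, ← Real.sqrt_eq_rpow, Real.sq_sqrt]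
  · simp only [Real.rpow_ofNat]
  · exact Finset.sum_nonneg fun i _ => Finset.sum_nonneg fun j _ => by positivity

theorem nsq_tr (A : Matrix ι κ ℂ) : ((‖A‖ ^ 2 : ℝ) : ℂ) = trace (A * Aᴴ) := by
  rw [nsq]
  unfold trace
  simp only [diag_apply, mul_apply, conjTranspose_apply]
  push_cast
  refine Finset.sum_congr rfl fun i _ => Finset.sum_congr rfl fun j _ => ?_
  exact (Complex.mul_conj' (A i j)).symm

variable [DecidableEq ι]

/-- `A Aᴴ` and `Aᴴ A` are equally close to a multiple of the identity -/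
theorem swap_norm (A : Matrix ι ι ℂ) (c : ℝ) :
    ‖A * Aᴴ - (c : ℂ) • (1 : Matrix ι ι ℂ)‖ = ‖Aᴴ * A - (c : ℂ) • (1 : Matrix ι ι ℂ)‖ := by
  have h : ((‖A * Aᴴ - (c : ℂ) • (1 : Matrix ι ι ℂ)‖ ^ 2 : ℝ) : ℂ) =
      ((‖Aᴴ * A - (c : ℂ) • (1 : Matrix ι ι ℂ)‖ ^ 2 : ℝ) : ℂ) := by
    have hc : star (c : ℂ) = c := Complex.conj_ofReal c
    rw [nsq_tr, nsq_tr]
    simp only [conjTranspose_sub, conjTranspose_mul, conjTranspose_conjTranspose,
      conjTranspose_smul, conjTranspose_one, hc, Matrix.sub_mul, Matrix.mul_sub, trace_sub,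
      Matrix.smul_mul, Matrix.mul_smul, trace_smul, Matrix.mul_one, Matrix.one_mul]
    have h1 : trace (A * Aᴴ * (A * Aᴴ)) = trace (Aᴴ * A * (Aᴴ * A)) := by
      rw [Matrix.mul_assoc, trace_mul_comm A, Matrix.mul_assoc, Matrix.mul_assoc,
        Matrix.mul_assoc]
    rw [h1, trace_mul_comm A Aᴴ]
  have h2 : ‖A * Aᴴ - (c : ℂ) • (1 : Matrix ι ι ℂ)‖ ^ 2 =
      ‖Aᴴ * A - (c : ℂ) • (1 : Matrix ι ι ℂ)‖ ^ 2 := by exact_mod_cast h
  exact (sq_eq_sq₀ (norm_nonneg _) (norm_nonneg _)).1 h2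

/-- near completeness from near orthogonality -/
theorem complete (A : Matrix ι ι ℂ) (c r : ℝ) (h : ‖A * Aᴴ - (c : ℂ) • (1 : Matrix ι ι ℂ)‖ ≤ r)
    (m : Matrix ι (Fin 1) ℂ) : |‖A * m‖ ^ 2 - c * ‖m‖ ^ 2| ≤ r * ‖m‖ ^ 2 := by
  have h1 : ((‖A * m‖ ^ 2 - c * ‖m‖ ^ 2 : ℝ) : ℂ) =
      trace (mᴴ * ((Aᴴ * A - (c : ℂ) • (1 : Matrix ι ι ℂ)) * m)) := by
    push_cast
    have h2 := nsq_tr (A * m)
    have h3 := nsq_tr m
    push_cast at h2 h3
    rw [h2, h3, Matrix.sub_mul, Matrix.mul_sub, trace_sub, Matrix.smul_mul, Matrix.one_mul,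
      Matrix.mul_smul, trace_smul, smul_eq_mul, trace_mul_comm mᴴ m, trace_mul_comm (A * m),
      conjTranspose_mul, Matrix.mul_assoc, Matrix.mul_assoc]
  have h4 : ∀ X : Matrix (Fin 1) (Fin 1) ℂ, ‖trace X‖ ≤ ‖X‖ := by
    intro X
    have e : trace X = X 0 0 := by simp [trace]
    have e2 : ‖X‖ ^ 2 = ‖X 0 0‖ ^ 2 := by
      rw [nsq]
      simp
    rw [e]
    exact ((sq_eq_sq₀ (norm_nonneg _) (norm_nonneg _)).1 e2).ge
  have h5 : |‖A * m‖ ^ 2 - c * ‖m‖ ^ 2| = ‖((‖A * m‖ ^ 2 - c * ‖m‖ ^ 2 : ℝ) : ℂ)‖ := by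
    rw [Complex.norm_real, Real.norm_eq_abs]
  rw [h5, h1]
  refine (h4 _).trans ((frobenius_norm_mul _ _).trans ?_)
  rw [frobenius_norm_conjTranspose]
  refine (mul_le_mul_of_nonneg_left (frobenius_norm_mul _ _) (norm_nonneg _)).trans ?_
  rw [← swap_norm]
  have h6 := mul_le_mul_of_nonneg_right h (sq_nonneg ‖m‖)
  nlinarith

end general

variable {N n L l : ℕ}

/-- the matrix of the dressings -/
noncomputable def Am (U : Link n L l → SU N) (x : Site n L l) : Matrix (Col N) (Col N) ℂ :=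
  Matrix.of fun α β => (Dr α U x).1 β.1 β.2

theorem Am_gram (U : Link n L l → SU N) (x : Site n L l) (α α' : Col N) :
    (Am U x * (Am U x)ᴴ) α α' = trace ((Dr α U x).1 * (Dr α' U x).1ᴴ) := by
  rw [mul_apply, Fintype.sum_prod_type]
  unfold trace
  simp only [diag_apply, mul_apply, conjTranspose_apply, Am, of_apply]

theorem Am_mul (U : Link n L l → SU N) (x : Site n L l) (M : Mt N) (α : Col N) :
    (Am U x * Matrix.of fun (β : Col N) (_ : Fin 1) => M β.2 β.1) α 0 =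
      trace ((Dr α U x).1 * M) := by
  rw [mul_apply, Fintype.sum_prod_type]
  unfold trace
  simp only [diag_apply, mul_apply, Am, of_apply]

theorem t_Q3 : S_Q2 → S_Q3 := by
  intro hQ2 N _
  obtain ⟨C, p, hC, h2⟩ := hQ2 N
  have hN : (0 : ℝ) < N := by exact_mod_cast Nat.pos_of_neZero N
  refine ⟨N ^ 2 * C, p, by positivity, ?_⟩
  intro n L l k _ _ _ hk q U x M
  have hs := ss_nonneg k q U
  have hη : 0 ≤ C * l ^ p * ss k q U := by positivity
  have hE : ‖Am U x * (Am U x)ᴴ - ((N : ℝ) : ℂ) • (1 : Matrix (Col N) (Col N) ℂ)‖ ≤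
      N ^ 2 * (C * l ^ p * ss k q U) := by
    refine abs_le_of_sq_le_sq' ?_ (by positivity) |>.2
    rw [nsq]
    have h3 : ∀ α α' : Col N, ‖(Am U x * (Am U x)ᴴ - ((N : ℝ) : ℂ) •
        (1 : Matrix (Col N) (Col N) ℂ)) α α'‖ ^ 2 ≤ (C * l ^ p * ss k q U) ^ 2 := by
      intro α α'
      refine pow_le_pow_left₀ (norm_nonneg _) ?_ 2
      rw [Matrix.sub_apply, Matrix.smul_apply, Am_gram]
      by_cases h : α = α'
      · subst h
        rw [mul_star_self', trace_one, Fintype.card_fin, one_apply_eq, smul_eq_mul, mul_one,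
          Complex.ofReal_natCast, sub_self, norm_zero]
        exact hη
      · rw [one_apply_ne h, smul_zero, sub_zero]
        exact h2 n L l k hk q U α α' x h
    refine (Finset.sum_le_sum fun α _ => Finset.sum_le_sum fun α' _ => h3 α α').trans ?_
    rw [Finset.sum_const, Finset.sum_const, Finset.card_univ, Fintype.card_prod,
      Fintype.card_fin, nsmul_eq_mul, nsmul_eq_mul]
    push_cast
    apply le_of_eq
    ring
  have h4 := complete (Am U x) N (N ^ 2 * (C * l ^ p * ss k q U)) hE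
    (Matrix.of fun (β : Col N) (_ : Fin 1) => M β.2 β.1)
  have h5 : ‖(Matrix.of fun (β : Col N) (_ : Fin 1) => M β.2 β.1 : Matrix (Col N) (Fin 1) ℂ)‖ ^ 2
      = ‖M‖ ^ 2 := by
    rw [nsq, nsq, Fintype.sum_prod_type, Finset.sum_comm]
    simp
  have h6 : ‖Am U x * Matrix.of fun (β : Col N) (_ : Fin 1) => M β.2 β.1‖ ^ 2 =
      ∑ α : Col N, ‖trace ((Dr α U x).1 * M)‖ ^ 2 := by
    rw [nsq]
    refine Finset.sum_congr rfl fun α _ => ?_
    rw [Fin.sum_univ_one, Am_mul]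
  rw [h5, h6] at h4
  refine h4.trans (le_of_eq ?_)
  ring

end Run7.h105.QC
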