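import Pool.Agent.Run7.h105.QC.Q1

/-!
# The dressings are nearly orthogonal
-/

set_option autoImplicit false

open Matrix
open scoped Matrix.Norms.Frobenius ComplexConjugate

namespace Run7.h105.QC

open Run7.h4.YM Run7.h630.MQ Run7.h630.QC Run7.h370.MQ Run7.h370.QC

variable {N n L l : ℕ}

/-- roots of unity are far from `1` -/
theorem root_far {N : ℕ} (hN : 0 < N) {z : ℂ} (hz : z ^ N = 1) (h1 : z ≠ 1) :
    1 ≤ N * ‖1 - z‖ := by
  have hn : ‖z‖ = 1 := Complex.norm_eq_one_of_pow_eq_one hz hN.ne'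
  have hi : ∀ i : ℕ, ‖1 - z ^ i‖ ≤ i * ‖1 - z‖ := by
    intro i
    induction i with
    | zero => simp
    | succ i ih =>
      have e : 1 - z ^ (i + 1) = (1 - z ^ i) + z ^ i * (1 - z) := by ring
      rw [e]
      refine (norm_add_le _ _).trans ?_
      rw [norm_mul, norm_pow, hn, one_pow, one_mul]
      push_cast
      linarith
  have hs : ∑ i ∈ Finset.range N, z ^ i = 0 := by
    have h2 := geom_sum_mul z N
    rw [hz, sub_self, mul_eq_zero] at h2
    rcases h2 with h2 | h2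
    · exact h2
    · exact absurd (sub_eq_zero.1 h2) h1
  have h3 : ∑ i ∈ Finset.range N, (1 - z ^ i) = (N : ℂ) := by
    rw [Finset.sum_sub_distrib, hs, sub_zero, Finset.sum_const, Finset.card_range, nsmul_eq_mul,
      mul_one]
  have h4 : (N : ℝ) ≤ ∑ i ∈ Finset.range N, (N : ℝ) * ‖1 - z‖ := by
    calc (N : ℝ) = ‖(N : ℂ)‖ := by rw [Complex.norm_natCast]
      _ = ‖∑ i ∈ Finset.range N, (1 - z ^ i)‖ := by rw [h3]
      _ ≤ ∑ i ∈ Finset.range N, ‖1 - z ^ i‖ := norm_sum_le _ _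
      _ ≤ ∑ i ∈ Finset.range N, (N : ℝ) * ‖1 - z‖ := by
        refine Finset.sum_le_sum fun i hiN => (hi i).trans ?_
        have : (i : ℝ) ≤ N := by exact_mod_cast (Finset.mem_range.1 hiN).le
        exact mul_le_mul_of_nonneg_right this (norm_nonneg _)
  rw [Finset.sum_const, Finset.card_range, nsmul_eq_mul] at h4
  have hN' : (0 : ℝ) < N := by exact_mod_cast hN
  by_contra hc
  push Not at hc
  nlinarith

/-- transport of the dressing along a line -/
theorem Dr_line [NeZero N] [NeZero n] [NeZero L] [NeZero l] (k : ℕ)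
    (q : ZMod n × ZMod L → ZMod N) (U : Link n L l → SU N) (α : Col N) (x : Site n L l)
    (μ : Fin 4) (m : ℕ) :
    ‖(pm μ U x m * Dr α U (x + m • dir μ) * (pm μ U x m)⁻¹).1 -
      (∏ t ∈ Finset.range m, rh k α (x + t • dir μ) μ) • (Dr α U x).1‖ ≤
      m * (2 * N * l * ss k q U) := by
  induction m with
  | zero =>
    have h' : pm μ U x 0 = 1 := by simp [pm]
    rw [h', zero_smul, add_zero, one_mul, inv_one, mul_one]
    simp
  | succ m ih =>
    have h1 := t_Q1 N n L l k q U α (x + m • dir μ) μ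
    have e2 : x + (m + 1) • dir μ = x + m • dir μ + (dir μ : Site n L l) := by
      rw [add_smul, one_smul, add_assoc]
    have e3 : (pm μ U x (m + 1) * Dr α U (x + (m + 1) • dir μ) * (pm μ U x (m + 1))⁻¹).1 =
        (pm μ U x m).1 * ((U (μ, x + m • dir μ)).1 * (Dr α U (x + m • dir μ + dir μ)).1 *
          (U (μ, x + m • dir μ)).1ᴴ) * ((pm μ U x m)⁻¹).1 := by
      have e4 : pm μ U x (m + 1) * Dr α U (x + (m + 1) • dir μ) * (pm μ U x (m + 1))⁻¹ =
          pm μ U x m * (U (μ, x + m • dir μ) * Dr α U (x + m • dir μ + dir μ) *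
            (U (μ, x + m • dir μ))⁻¹) * (pm μ U x m)⁻¹ := by
        rw [pm_succ, e2]
        group
      rw [e4]
      rfl
    have e5 : (pm μ U x (m + 1) * Dr α U (x + (m + 1) • dir μ) * (pm μ U x (m + 1))⁻¹).1 -
        (∏ t ∈ Finset.range (m + 1), rh k α (x + t • dir μ) μ) • (Dr α U x).1 =
        (pm μ U x m).1 * ((U (μ, x + m • dir μ)).1 * (Dr α U (x + m • dir μ + dir μ)).1 *
          (U (μ, x + m • dir μ)).1ᴴ - rh k α (x + m • dir μ) μ • (Dr α U (x + m • dir μ)).1) *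
            ((pm μ U x m)⁻¹).1 +
        rh k α (x + m • dir μ) μ •
          ((pm μ U x m * Dr α U (x + m • dir μ) * (pm μ U x m)⁻¹).1 -
            (∏ t ∈ Finset.range m, rh k α (x + t • dir μ) μ) • (Dr α U x).1) := by
      have e6 : (pm μ U x m * Dr α U (x + m • dir μ) * (pm μ U x m)⁻¹).1 =
        (pm μ U x m).1 * (Dr α U (x + m • dir μ)).1 * ((pm μ U x m)⁻¹).1 := rfl
      rw [e3, e6, Finset.prod_range_succ, Matrix.mul_sub, Matrix.sub_mul, smul_sub,
        Matrix.mul_smul, Matrix.smul_mul, smul_smul, mul_comm (rh k α (x + m • dir μ) μ)]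
      abel
    rw [e5]
    refine (norm_add_le _ _).trans ?_
    rw [nru, nlu, norm_smul, rh_norm, one_mul, Nat.cast_succ, add_mul, one_mul, add_comm]
    exact add_le_add ih h1

theorem hol2 [NeZero l] (k : ℕ) (α : Col N) (x : Site n L l) :
    ∏ t ∈ Finset.range l, rh k α (x + t • dir 2) 2 = conj (om N k) ^ (α.2 : ℕ) := by
  have e : ∀ t : ℕ, rh k α (x + t • dir 2) 2 =
      if x.2.2.1 + (t : ZMod l) = 0 then conj (om N k) ^ (α.2 : ℕ) else 1 := by
    intro t
    unfold rh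
    rw [dir2_co]
    simp
  simp only [e]
  rw [one_hit]

theorem hol3 [NeZero l] (k : ℕ) (α : Col N) (x : Site n L l) :
    ∏ t ∈ Finset.range l, rh k α (x + t • dir 3) 3 = om N k ^ (α.1 : ℕ) := by
  have e : ∀ t : ℕ, rh k α (x + t • dir 3) 3 =
      if x.2.2.2 + (t : ZMod l) = 0 then om N k ^ (α.1 : ℕ) else 1 := by
    intro t
    unfold rh
    rw [dir3_co]
    simp
  simp only [e]
  rw [one_hit]

/-- transport once around the torus -/
theorem around2 [NeZero N] [NeZero n] [NeZero L] [NeZero l] (k : ℕ)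
    (q : ZMod n × ZMod L → ZMod N) (U : Link n L l → SU N) (α : Col N) (x : Site n L l) :
    ‖(lp U x * Dr α U x * (lp U x)⁻¹).1 - conj (om N k) ^ (α.2 : ℕ) • (Dr α U x).1‖ ≤
      l * (2 * N * l * ss k q U) := by
  have h := Dr_line k q U α x 2 l
  rw [l_dir2, hol2] at h
  exact h

theorem around3 [NeZero N] [NeZero n] [NeZero L] [NeZero l] (k : ℕ)
    (q : ZMod n × ZMod L → ZMod N) (U : Link n L l → SU N) (α : Col N) (x : Site n L l) :
    ‖(lq U x * Dr α U x * (lq U x)⁻¹).1 - om N k ^ (α.1 : ℕ) • (Dr α U x).1‖ ≤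
      l * (2 * N * l * ss k q U) := by
  have h := Dr_line k q U α x 3 l
  rw [l_dir3, hol3] at h
  exact h

/-- approximate eigenvectors with different eigenvalues are nearly orthogonal -/
theorem orth {P D D' : SU N} {z z' : ℂ} {r : ℝ} (hz : ‖z‖ = 1)
    (h : ‖(P * D * P⁻¹).1 - z • D.1‖ ≤ r) (h' : ‖(P * D' * P⁻¹).1 - z' • D'.1‖ ≤ r) :
    ‖1 - z * conj z'‖ * ‖trace (D.1 * D'.1ᴴ)‖ ≤ 2 * N * r := by
  have e1 : trace ((P * D * P⁻¹).1 * (P * D' * P⁻¹).1ᴴ) = trace (D.1 * D'.1ᴴ) := by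
    have e2 : (P * D * P⁻¹).1 * (P * D' * P⁻¹).1ᴴ = (P * (D * D'⁻¹) * P⁻¹).1 := by
      have e3 : (P * D * P⁻¹).1 * (P * D' * P⁻¹).1ᴴ = ((P * D * P⁻¹) * (P * D' * P⁻¹)⁻¹).1 := rfl
      rw [e3]
      congr 1
      group
    rw [e2]
    exact trace_cj P _
  have e4 : (1 - z * conj z') * trace (D.1 * D'.1ᴴ) =
      trace (((P * D * P⁻¹).1 - z • D.1) * ((P * D' * P⁻¹)⁻¹).1) +
      z * trace (D.1 * ((P * D' * P⁻¹).1 - z' • D'.1)ᴴ) := by
    have e5 : ((P * D' * P⁻¹)⁻¹).1 = (P * D' * P⁻¹).1ᴴ := rfl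
    rw [e5, Matrix.sub_mul, trace_sub, e1, conjTranspose_sub, Matrix.mul_sub, trace_sub,
      Matrix.smul_mul, trace_smul, conjTranspose_smul, Matrix.mul_smul, trace_smul]
    simp only [smul_eq_mul, RCLike.star_def]
    ring
  rw [← norm_mul, e4]
  refine (norm_add_le _ _).trans ?_
  have h1 : ‖trace (((P * D * P⁻¹).1 - z • D.1) * ((P * D' * P⁻¹)⁻¹).1)‖ ≤ N * r := by
    refine (norm_tr_le _).trans ?_
    rw [nru]
    exact mul_le_mul_of_nonneg_left h (Nat.cast_nonneg _)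
  have h2 : ‖z * trace (D.1 * ((P * D' * P⁻¹).1 - z' • D'.1)ᴴ)‖ ≤ N * r := by
    rw [norm_mul, hz, one_mul]
    refine (norm_tr_le _).trans ?_
    rw [nlu, frobenius_norm_conjTranspose]
    exact mul_le_mul_of_nonneg_left h' (Nat.cast_nonneg _)
  linarith

theorem t_Q2 : S_Q1 → S_Q2 := by
  intro _ N _
  have hN : 0 < N := Nat.pos_of_neZero N
  have hN' : (0 : ℝ) < N := by exact_mod_cast hN
  refine ⟨4 * N ^ 3, 2, by positivity, ?_⟩
  intro n L l k _ _ _ hk q U α α' x hne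
  have hprim : IsPrimitiveRoot (om N k) N := Complex.isPrimitiveRoot_exp_of_coprime k N hN.ne' hk
  have hs := ss_nonneg k q U
  have hcm : conj (om N k) * om N k = 1 := conj_mul_self (norm_om N k)
  have hmc : om N k * conj (om N k) = 1 := mul_conj_self (norm_om N k)
  have hr : ∀ a : ℕ, (om N k ^ a) ^ N = 1 := fun a => by
    rw [← pow_mul, mul_comm, pow_mul, om_pow, one_pow]
  -- the conclusion from a direction
  have key : ∀ (P : SU N) (z z' : ℂ), ‖z‖ = 1 → (z * conj z') ^ N = 1 → z * conj z' ≠ 1 →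
      ‖(P * Dr α U x * P⁻¹).1 - z • (Dr α U x).1‖ ≤ l * (2 * N * l * ss k q U) →
      ‖(P * Dr α' U x * P⁻¹).1 - z' • (Dr α' U x).1‖ ≤ l * (2 * N * l * ss k q U) →
      ‖trace ((Dr α U x).1 * (Dr α' U x).1ᴴ)‖ ≤ 4 * N ^ 3 * l ^ 2 * ss k q U := by
    intro P z z' hz hp h1 ha ha'
    have h2 := orth hz ha ha'
    have h3 := root_far hN hp h1
    have h4 : ‖trace ((Dr α U x).1 * (Dr α' U x).1ᴴ)‖ ≤
        N * (‖1 - z * conj z'‖ * ‖trace ((Dr α U x).1 * (Dr α' U x).1ᴴ)‖) := by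
      rw [← mul_assoc]
      exact le_mul_of_one_le_left (norm_nonneg _) h3
    refine h4.trans ((mul_le_mul_of_nonneg_left h2 hN'.le).trans (le_of_eq ?_))
    ring
  by_cases h2 : (α.2 : ℕ) = α'.2
  · have h1 : (α.1 : ℕ) ≠ α'.1 := by
      intro h1
      exact hne (Prod.ext (Fin.ext h1) (Fin.ext h2))
    refine key (lq U x) (om N k ^ (α.1 : ℕ)) (om N k ^ (α'.1 : ℕ)) ?_ ?_ ?_
      (around3 k q U α x) (around3 k q U α' x)
    · rw [norm_pow, norm_om, one_pow]
    · rw [mul_pow, ← map_pow, hr, hr, map_one, one_mul]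
    · intro h
      apply h1
      refine hprim.pow_inj α.1.2 α'.1.2 ?_
      calc om N k ^ (α.1 : ℕ) = om N k ^ (α.1 : ℕ) * (conj (om N k) * om N k) ^ (α'.1 : ℕ) := by
            rw [hcm, one_pow, mul_one]
        _ = (om N k ^ (α.1 : ℕ) * conj (om N k ^ (α'.1 : ℕ))) * om N k ^ (α'.1 : ℕ) := by
            rw [mul_pow, map_pow, mul_assoc]
        _ = om N k ^ (α'.1 : ℕ) := by rw [h, one_mul]
  · refine key (lp U x) (conj (om N k) ^ (α.2 : ℕ)) (conj (om N k) ^ (α'.2 : ℕ)) ?_ ?_ ?_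
      (around2 k q U α x) (around2 k q U α' x)
    · rw [norm_pow, RCLike.norm_conj, norm_om, one_pow]
    · rw [map_pow, Complex.conj_conj, mul_pow, hr, mul_one, ← map_pow, ← map_pow, hr, map_one]
    · intro h
      apply h2
      symm
      refine hprim.pow_inj α'.2.2 α.2.2 ?_
      rw [map_pow, Complex.conj_conj] at h
      calc om N k ^ (α'.2 : ℕ) = (om N k * conj (om N k)) ^ (α.2 : ℕ) * om N k ^ (α'.2 : ℕ) := by
            rw [hmc, one_pow, one_mul]
        _ = om N k ^ (α.2 : ℕ) * (conj (om N k) ^ (α.2 : ℕ) * om N k ^ (α'.2 : ℕ)) := by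
            rw [mul_pow, mul_assoc]
        _ = om N k ^ (α.2 : ℕ) := by rw [h, mul_one]

end Run7.h105.QC
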